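import Pool.Agent.Helper2.Malchar.MalThm

/-!
For every `n ≥ 3` the free group of rank `n` contains a malcharacteristic subgroup which is free of
rank two.
-/

namespace Pool.Agent.Results.MP_2c4f00_al.MalcharacteristicFreeRankTwo

theorem result (n : ℕ) (hn : 3 ≤ n) :
    ∃ M : Subgroup (FreeGroup (Fin n)), Nonempty (M ≃* FreeGroup (Fin 2)) ∧
      ∀ δ : MulAut (FreeGroup (Fin n)),
        M.map (δ : FreeGroup (Fin n) →* FreeGroup (Fin n)) ⊓ M ≠ ⊥ →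
          ∃ m ∈ M, δ = MulAut.conj m := by
  obtain ⟨M, ⟨e⟩, hM⟩ := Pool.Agent.Helper2.Malchar.malchar hn
  refine ⟨M, ⟨e.symm⟩, fun δ hδ => ?_⟩
  obtain ⟨m, hm, h⟩ := hM δ hδ
  refine ⟨m, hm, ?_⟩
  ext x
  rw [h, MulAut.conj_apply]

end Pool.Agent.Results.MP_2c4f00_al.MalcharacteristicFreeRankTwo
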